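import Pool.Agent.H24.AG.Targets
import Pool.Agent.H24.Sqf.ExpPrime

/-!
ABSOLUTE GAP: row VVG, the theorem of Vinogradov (assembly by the identity of Vaughan).
-/

set_option autoImplicit false

open Finset

namespace Pool.Agent.H90.AG.VVG

open Pool.Agent.H24.AG
open Pool.Agent.H24.Sqf (trunc tw tw_add tw_sub tw_mul vaughan sum_log_mul trunc_apply
  abs_trunc_moebius_le abs_conv_le conv_eq_zero beta beta_eq_zero sum_Ioc_dyadic)
open scoped ArithmeticFunction.Moebius ArithmeticFunction.zeta ArithmeticFunction.vonMangoldt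

theorem ee_norm (x : ℝ) : ‖ee x‖ = 1 := by
  unfold ee
  have h : 2 * Real.pi * Complex.I * (x : ℂ) = ((2 * Real.pi * x : ℝ) : ℂ) * Complex.I := by
    push_cast; ring
  rw [h, Complex.norm_exp_ofReal_mul_I]

theorem log_le_l {n X : ℕ} (hX : 1 ≤ X) (hn : n ≤ X) : Real.log n ≤ Real.log (2 * X) := by
  have hXR : (1 : ℝ) ≤ X := by exact_mod_cast hX
  rcases Nat.eq_zero_or_pos n with h | h
  · subst h
    simp only [Nat.cast_zero, Real.log_zero]
    exact Real.log_nonneg (by linarith)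
  · apply Real.log_le_log (by exact_mod_cast h)
    have : (n : ℝ) ≤ X := by exact_mod_cast hn
    linarith

theorem part0 (w : ℕ → ℂ) (hw : ∀ n, ‖w n‖ ≤ 1) (U Y X : ℕ) (hX : 1 ≤ X) (hY : Y ≤ X) :
    ‖tw w 0 Y (trunc U Λ)‖ ≤ U * Real.log (2 * X) := by
  have hXR : (1 : ℝ) ≤ X := by exact_mod_cast hX
  have hl : 0 ≤ Real.log (2 * (X : ℝ)) := Real.log_nonneg (by linarith)
  unfold tw
  calc _ ≤ ∑ n ∈ Ioc 0 Y, (if n ≤ U then Real.log (2 * X) else 0) := by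
        refine (norm_sum_le _ _).trans (sum_le_sum fun n hn => ?_)
        rw [mem_Ioc] at hn
        rw [trunc_apply, norm_mul, Complex.norm_real, Real.norm_eq_abs]
        split_ifs with h
        · rw [abs_of_nonneg ArithmeticFunction.vonMangoldt_nonneg]
          calc Λ n * ‖w n‖ ≤ Real.log n * 1 := by
                apply mul_le_mul ArithmeticFunction.vonMangoldt_le_log (hw n) (norm_nonneg _)
                exact Real.log_natCast_nonneg n
            _ ≤ Real.log (2 * X) := by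
                rw [mul_one]
                exact log_le_l hX (by omega)
        · simp
    _ ≤ ∑ n ∈ Ioc 0 U, Real.log (2 * X) := by
        rw [← sum_filter]
        apply sum_le_sum_of_subset_of_nonneg
        · intro n hn
          rw [mem_filter, mem_Ioc] at hn
          rw [mem_Ioc]
          omega
        · intro _ _ _
          exact hl
    _ = U * Real.log (2 * X) := by
        rw [sum_const, Nat.card_Ioc, nsmul_eq_mul]
        simp

/-- the two sums of type I -/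
theorem part1 (w : ℕ → ℂ) (U Y X : ℕ) (F : ℕ → ℝ) (hX : 1 ≤ X) (hY : Y ≤ X)
    (hF0 : ∀ d, 0 ≤ F d)
    (hF : ∀ d b : ℕ, 0 < d → d ≤ Y → b ≤ Y / d → ‖∑ m ∈ Ioc 0 b, w (d * m)‖ ≤ F d) :
    ‖tw w 0 Y (trunc U (μ : ArithmeticFunction ℝ) * ArithmeticFunction.log)‖ ≤
      2 * Real.log (2 * X) * ∑ d ∈ Ioc 0 U, F d := by
  have hXR : (1 : ℝ) ≤ X := by exact_mod_cast hX
  have hl : 0 ≤ Real.log (2 * (X : ℝ)) := Real.log_nonneg (by linarith)
  rw [tw_mul]
  have h1 : ∀ d ∈ Ioc 0 Y, ‖((trunc U (μ : ArithmeticFunction ℝ) d : ℝ) : ℂ) *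
      ∑ m ∈ Ioc (0 / d) (Y / d), ((ArithmeticFunction.log m : ℝ) : ℂ) * w (d * m)‖
      ≤ if d ≤ U then 2 * Real.log (2 * X) * F d else 0 := by
    intro d hd
    rw [mem_Ioc] at hd
    split_ifs with h
    · rw [norm_mul, Complex.norm_real, Real.norm_eq_abs, Nat.zero_div]
      have h2 := abs_trunc_moebius_le U d
      have h3 : ‖∑ m ∈ Ioc 0 (Y / d), ((ArithmeticFunction.log m : ℝ) : ℂ) * w (d * m)‖ ≤
          2 * Real.log (Y / d : ℕ) * F d := by
        have h4 := sum_log_mul (fun m => w (d * m)) 0 (Y / d) (F d)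
          (Nat.div_pos hd.2 hd.1) (hF0 d) (fun b hb => hF d b hd.1 hd.2 hb)
        exact h4
      have h5 : Real.log (Y / d : ℕ) ≤ Real.log (2 * X) :=
        log_le_l hX ((Nat.div_le_self _ _).trans hY)
      calc _ ≤ 1 * (2 * Real.log (2 * X) * F d) := by
            apply mul_le_mul h2 (h3.trans _) (norm_nonneg _) zero_le_one
            have := hF0 d
            gcongr
        _ = _ := one_mul _
    · rw [trunc_apply, if_neg h]
      simp
  refine ((norm_sum_le _ _).trans (sum_le_sum h1)).trans ?_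
  rw [← sum_filter, mul_sum]
  apply sum_le_sum_of_subset_of_nonneg
  · intro n hn
    rw [mem_filter, mem_Ioc] at hn
    rw [mem_Ioc]
    omega
  · intro d _ _
    have := hF0 d
    positivity

theorem part2 (w : ℕ → ℂ) (U Y X : ℕ) (F : ℕ → ℝ) (hX : 1 ≤ X) (hY : Y ≤ X)
    (hF0 : ∀ d, 0 ≤ F d)
    (hF : ∀ d b : ℕ, 0 < d → d ≤ Y → b ≤ Y / d → ‖∑ m ∈ Ioc 0 b, w (d * m)‖ ≤ F d) :
    ‖tw w 0 Y ((trunc U (μ : ArithmeticFunction ℝ) * trunc U Λ) * (ζ : ArithmeticFunction ℝ))‖ ≤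
      Real.log (2 * X) * ∑ d ∈ Ioc 0 (U ^ 2), F d := by
  have hXR : (1 : ℝ) ≤ X := by exact_mod_cast hX
  have hl : 0 ≤ Real.log (2 * (X : ℝ)) := Real.log_nonneg (by linarith)
  rw [tw_mul]
  have h1 : ∀ d ∈ Ioc 0 Y, ‖(((trunc U (μ : ArithmeticFunction ℝ) * trunc U Λ) d : ℝ) : ℂ) *
      ∑ m ∈ Ioc (0 / d) (Y / d), (((ζ : ArithmeticFunction ℝ) m : ℝ) : ℂ) * w (d * m)‖
      ≤ if d ≤ U ^ 2 then Real.log (2 * X) * F d else 0 := by
    intro d hd
    rw [mem_Ioc] at hd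
    split_ifs with h
    · rw [norm_mul, Complex.norm_real, Real.norm_eq_abs, Nat.zero_div]
      have h2 := (abs_conv_le U d).trans (log_le_l hX (hd.2.trans hY))
      have h3 : ∑ m ∈ Ioc 0 (Y / d), (((ζ : ArithmeticFunction ℝ) m : ℝ) : ℂ) * w (d * m)
          = ∑ m ∈ Ioc 0 (Y / d), w (d * m) := by
        apply sum_congr rfl
        intro m hm
        rw [mem_Ioc] at hm
        have : m ≠ 0 := by omega
        rw [ArithmeticFunction.natCoe_apply, ArithmeticFunction.zeta_apply_ne this]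
        simp
      rw [h3]
      exact mul_le_mul h2 (hF d _ hd.1 hd.2 le_rfl) (norm_nonneg _) hl
    · rw [conv_eq_zero U d (by omega)]
      simp
  refine ((norm_sum_le _ _).trans (sum_le_sum h1)).trans ?_
  rw [← sum_filter, mul_sum]
  apply sum_le_sum_of_subset_of_nonneg
  · intro n hn
    rw [mem_filter, mem_Ioc] at hn
    rw [mem_Ioc]
    omega
  · intro d _ _
    have := hF0 d
    positivity

/-- the sum of type II -/
theorem part3 (w : ℕ → ℂ) (U Y X : ℕ) (B : ℝ) (hX : 2 ≤ X) (hY : Y ≤ X) (hU : 1 ≤ U)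
    (hB0 : 0 ≤ B)
    (hB : ∀ M : ℕ, 1 ≤ M → U < 2 * M → M * U ≤ X → M ≤ X →
      ‖∑ m ∈ Ioc M (2 * M), (((Λ - trunc U Λ) m : ℝ) : ℂ) *
        ∑ l ∈ Ioc (0 / m) (Y / m), ((beta U l : ℝ) : ℂ) * w (m * l)‖ ≤ B) :
    ‖tw w 0 Y ((Λ - trunc U Λ) * beta U)‖ ≤ 2 * Real.log (2 * X) * B := by
  have hXR : (2 : ℝ) ≤ X := by exact_mod_cast hX
  have hl : 0 ≤ Real.log (2 * (X : ℝ)) := Real.log_nonneg (by linarith)
  rw [tw_mul]
  set g : ℕ → ℂ := fun m => (((Λ - trunc U Λ) m : ℝ) : ℂ) *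
    ∑ l ∈ Ioc (0 / m) (Y / m), ((beta U l : ℝ) : ℂ) * w (m * l) with hg
  set I : ℕ := Nat.log 2 Y + 1 with hIdef
  have hI2 : Y < 2 ^ I := Nat.lt_pow_succ_log_self (by norm_num) _
  have hg1 : g 1 = 0 := by
    simp only [hg]
    have : (Λ - trunc U Λ) 1 = Λ 1 - trunc U Λ 1 := rfl
    rw [this, trunc_apply, if_pos (by omega), sub_self]
    simp
  have hext : ∑ m ∈ Ioc 0 Y, g m = ∑ m ∈ Ioc 0 (2 ^ I), g m := by
    apply sum_subset
    · intro m hm
      rw [mem_Ioc] at *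
      omega
    · intro m hm hm'
      rw [mem_Ioc] at *
      simp only [hg]
      have h2 : Y / m = 0 := Nat.div_eq_of_lt (by omega)
      rw [h2, Nat.zero_div]
      simp
  rw [hext, sum_Ioc_dyadic, hg1, zero_add]
  have hblock : ∀ i ∈ range I, ‖∑ m ∈ Ioc (2 ^ i) (2 * 2 ^ i), g m‖ ≤ B := by
    intro i _
    set M : ℕ := 2 ^ i with hM
    have hM1 : 1 ≤ M := Nat.one_le_two_pow
    by_cases ha : 2 * M ≤ U
    · have : ∑ m ∈ Ioc M (2 * M), g m = 0 := by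
        apply sum_eq_zero
        intro m hm
        rw [mem_Ioc] at hm
        simp only [hg]
        have h2 : (Λ - trunc U Λ) m = Λ m - trunc U Λ m := rfl
        rw [h2, trunc_apply, if_pos (by omega), sub_self]
        simp
      rw [this, norm_zero]
      exact hB0
    by_cases hb : Y / M ≤ U
    · have : ∑ m ∈ Ioc M (2 * M), g m = 0 := by
        apply sum_eq_zero
        intro m hm
        rw [mem_Ioc] at hm
        simp only [hg]
        have : ∑ l ∈ Ioc (0 / m) (Y / m), ((beta U l : ℝ) : ℂ) * w (m * l) = 0 := by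
          apply sum_eq_zero
          intro l hl
          rw [mem_Ioc] at hl
          have h3 : Y / m ≤ Y / M := Nat.div_le_div_left hm.1.le (by omega)
          rw [beta_eq_zero U l (by omega)]
          simp
        rw [this, mul_zero]
      rw [this, norm_zero]
      exact hB0
    push Not at ha hb
    have hMY : M * (Y / M) ≤ Y := Nat.mul_div_le Y M
    have hMU : M * U ≤ X := by
      calc M * U ≤ M * (Y / M) := Nat.mul_le_mul_left _ hb.le
        _ ≤ X := hMY.trans hY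
    have hMX : M ≤ X := by
      calc M = M * 1 := (mul_one M).symm
        _ ≤ M * U := Nat.mul_le_mul_left _ hU
        _ ≤ X := hMU
    exact hB M hM1 ha hMU hMX
  have hIle : (I : ℝ) ≤ 2 * Real.log (2 * X) := by
    have h0 : Nat.log 2 Y ≤ Nat.log 2 X := Nat.log_mono_right hY
    have h1 : (Nat.log 2 X : ℝ) ≤ Real.log X / Real.log 2 := by
      have h2 := Real.natLog_le_logb X 2
      rw [Real.logb] at h2
      push_cast at h2
      exact h2
    have h2 : Real.log (2 * X) = Real.log 2 + Real.log X := Real.log_mul (by norm_num) (by positivity)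
    have h3 : (0.5 : ℝ) < Real.log 2 := by
      have := Real.log_two_gt_d9
      linarith
    have h4 : 0 ≤ Real.log (X : ℝ) := Real.log_nonneg (by linarith)
    have h5 : Real.log X / Real.log 2 ≤ 2 * Real.log X := by
      rw [div_le_iff₀ (by linarith)]
      nlinarith
    have h6 : (Nat.log 2 Y : ℝ) ≤ Nat.log 2 X := by exact_mod_cast h0
    rw [hIdef, h2]
    push_cast
    linarith
  calc _ ≤ ∑ i ∈ range I, B := (norm_sum_le _ _).trans (sum_le_sum hblock)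
    _ = I * B := by rw [sum_const, card_range, nsmul_eq_mul]
    _ ≤ (2 * Real.log (2 * X)) * B := by gcongr

theorem mn_nonneg {M x : ℝ} (hM : 0 ≤ M) : 0 ≤ mn M x := by
  have h : 0 ≤ dn x := abs_nonneg _
  unfold mn
  split_ifs
  · exact hM
  · positivity

theorem final_ineq {ℓ T C₂ C₃ u s1 s2 : ℝ} (hℓ : 1 ≤ ℓ) (hT : 0 ≤ T) (hC₂ : 0 ≤ C₂)
    (hu : u ≤ T) (h1 : s1 ≤ 4 * C₂ * T * ℓ ^ 2) (h2 : s2 ≤ 4 * C₂ * T * ℓ ^ 2) :
    u * ℓ + 2 * ℓ * s1 + ℓ * s2 + 2 * ℓ * (√(6 * C₃) * ℓ ^ 3 * T) ≤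
      (1 + 12 * C₂ + 2 * √(6 * C₃)) * T * ℓ ^ 4 := by
  have hℓ0 : 0 ≤ ℓ := by linarith
  have e1 : u * ℓ ≤ T * ℓ ^ 4 := by
    have h3 : ℓ ≤ ℓ ^ 4 := le_self_pow₀ hℓ (by norm_num)
    calc u * ℓ ≤ T * ℓ := by gcongr
      _ ≤ T * ℓ ^ 4 := by gcongr
  have h3 : ℓ ^ 3 ≤ ℓ ^ 4 := pow_le_pow_right₀ hℓ (by norm_num)
  have e2 : 2 * ℓ * s1 ≤ 8 * C₂ * T * ℓ ^ 4 := by
    calc 2 * ℓ * s1 ≤ 2 * ℓ * (4 * C₂ * T * ℓ ^ 2) := by gcongr
      _ = 8 * C₂ * T * ℓ ^ 3 := by ring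
      _ ≤ 8 * C₂ * T * ℓ ^ 4 := by gcongr
  have e3 : ℓ * s2 ≤ 4 * C₂ * T * ℓ ^ 4 := by
    calc ℓ * s2 ≤ ℓ * (4 * C₂ * T * ℓ ^ 2) := by gcongr
      _ = 4 * C₂ * T * ℓ ^ 3 := by ring
      _ ≤ 4 * C₂ * T * ℓ ^ 4 := by gcongr
  calc _ ≤ T * ℓ ^ 4 + 8 * C₂ * T * ℓ ^ 4 + 4 * C₂ * T * ℓ ^ 4 +
        2 * ℓ * (√(6 * C₃) * ℓ ^ 3 * T) := by linarith
    _ = _ := by ring

theorem six_sq {a b c : ℝ} (ha : 0 ≤ a) (hb : 0 ≤ b) (hc : 0 ≤ c) :
    6 * b ^ 2 + a ^ 2 + c ^ 2 ≤ 6 * (a + b + c) ^ 2 := by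
  have h1 := mul_nonneg ha hb
  have h2 := mul_nonneg ha hc
  have h3 := mul_nonneg hb hc
  have h4 := sq_nonneg a
  have h5 := sq_nonneg c
  have h6 : 6 * (a + b + c) ^ 2 = 6 * b ^ 2 + a ^ 2 + c ^ 2 + 5 * a ^ 2 + 5 * c ^ 2 +
    12 * (a * b) + 12 * (a * c) + 12 * (b * c) := by ring
  rw [h6]
  linarith

theorem aux1 {q : ℝ} (hq : 1 ≤ q) : q ≤ q ^ 2 := le_self_pow₀ hq (by norm_num)

theorem aux2 {q X : ℝ} (hq : 0 ≤ q) (hqX : q ≤ X) : q ^ 2 ≤ X * q := by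
  rw [sq]
  gcongr

theorem aux3 {q X : ℝ} (hX : 0 ≤ X) (hqX : q ≤ X) : 2 * q * X ≤ (2 * X) ^ 2 := by
  have h : (2 * X) ^ 2 = 2 * X * X + 2 * X ^ 2 := by ring
  rw [h]
  have h1 : 2 * q * X ≤ 2 * X * X := by gcongr
  have h2 : 0 ≤ 2 * X ^ 2 := by positivity
  linarith

theorem aux4 {q X : ℝ} (hq : 1 ≤ q) (hX : 1 ≤ X) : 1 ≤ 2 * q * X := by
  have h : 1 ≤ q * X := one_le_mul_of_one_le_of_one_le hq hX
  linarith

theorem pf_VVG (hg : T_VGE) (hs : T_VS2) (hb : T_VBL) : T_VVG := by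
  obtain ⟨C₂, hC₂, hs⟩ := hs
  obtain ⟨C₃, hC₃, hb⟩ := hb
  refine ⟨1 + 12 * C₂ + 2 * √(6 * C₃), by positivity, ?_⟩
  intro θ q a X Y hq ha hθ hqX hX hY
  have hXR : (2 : ℝ) ≤ X := by exact_mod_cast hX
  have hX0 : (0 : ℝ) < X := by linarith
  have hqR : (1 : ℝ) ≤ q := by exact_mod_cast hq
  have hq0 : (0 : ℝ) < q := by linarith
  have hqXR : (q : ℝ) ≤ X := by exact_mod_cast hqX
  have hX1 : 1 ≤ X := by omega
  set ℓ : ℝ := Real.log (2 * (X : ℝ)) with hℓ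
  have hℓ1 : 1 ≤ ℓ := by
    have h1 : Real.log (2 * (X : ℝ)) = Real.log 2 + Real.log X :=
      Real.log_mul (by norm_num) (by positivity)
    have h2 : Real.log 2 ≤ Real.log (X : ℝ) := Real.log_le_log (by norm_num) hXR
    have h3 := Real.log_two_gt_d9
    rw [hℓ, h1]
    linarith
  have hℓ0 : 0 ≤ ℓ := by linarith
  set r : ℝ := (X : ℝ) ^ (1 / 5 : ℝ) with hr
  have hr0 : 0 < r := Real.rpow_pos_of_pos hX0 _
  have hr1 : 1 ≤ r := Real.one_le_rpow (by linarith) (by norm_num)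
  have hrk : ∀ k : ℕ, r ^ k = (X : ℝ) ^ ((k : ℝ) / 5) := by
    intro k
    rw [hr, ← Real.rpow_natCast, ← Real.rpow_mul hX0.le]
    congr 1
    ring
  have hr5 : r ^ 5 = X := by
    rw [hrk 5]
    norm_num
  have hr4 : (X : ℝ) ^ (4 / 5 : ℝ) = r ^ 4 := by rw [hrk 4]; norm_num
  set U : ℕ := ⌊r ^ 2⌋₊ with hU
  have hU1 : 1 ≤ U := by
    apply Nat.le_floor
    have : (1 : ℝ) ≤ r ^ 2 := one_le_pow₀ hr1
    exact_mod_cast this
  have hU1R : (1 : ℝ) ≤ U := by exact_mod_cast hU1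
  have hUle : (U : ℝ) ≤ r ^ 2 := Nat.floor_le (by positivity)
  have hUge : r ^ 2 ≤ 2 * U := by
    have := (Nat.lt_floor_add_one (r ^ 2)).le
    rw [← hU] at this
    linarith
  have hU2 : ((U ^ 2 : ℕ) : ℝ) ≤ r ^ 4 := by
    push_cast
    calc (U : ℝ) ^ 2 ≤ (r ^ 2) ^ 2 := by gcongr
      _ = r ^ 4 := by ring
  have hr4X : r ^ 4 ≤ X := by
    rw [← hr5]
    exact pow_le_pow_right₀ hr1 (by norm_num)
  have hr24 : r ^ 2 ≤ r ^ 4 := pow_le_pow_right₀ hr1 (by norm_num)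
  rw [hr4]
  set T : ℝ := (X : ℝ) / √(q : ℝ) + r ^ 4 + √((X : ℝ) * q) with hT
  have hsq0 : 0 < √(q : ℝ) := Real.sqrt_pos.2 hq0
  have hT1 : 0 ≤ (X : ℝ) / √(q : ℝ) := by positivity
  have hT2 : 0 ≤ r ^ 4 := by positivity
  have hT3 : 0 ≤ √((X : ℝ) * q) := Real.sqrt_nonneg _
  have hT0 : 0 ≤ T := by positivity
  have hXq : (X : ℝ) / q ≤ X / √(q : ℝ) := by
    apply div_le_div_of_nonneg_left hX0.le hsq0
    rw [Real.sqrt_le_left hq0.le]
    exact aux1 hqR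
  have hqs : (q : ℝ) ≤ √((X : ℝ) * q) := by
    apply Real.le_sqrt_of_sq_le
    exact aux2 hq0.le hqXR
  -- the sums of type I
  have hlog : Real.log (2 * q * X) ^ 2 ≤ 4 * ℓ ^ 2 := by
    have h1 : Real.log (2 * q * X) ≤ 2 * ℓ := by
      have h2 : Real.log ((2 * (X : ℝ)) ^ 2) = 2 * ℓ := by
        rw [Real.log_pow]
        push_cast
        rfl
      rw [← h2]
      apply Real.log_le_log (by positivity)
      exact aux3 hX0.le hqXR
    have h3 : 0 ≤ Real.log (2 * q * X) := by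
      apply Real.log_nonneg
      exact aux4 hqR (by linarith)
    calc Real.log (2 * q * X) ^ 2 ≤ (2 * ℓ) ^ 2 := by gcongr
      _ = 4 * ℓ ^ 2 := by ring
  have hsum : ∀ D : ℕ, (D : ℝ) ≤ r ^ 4 →
      ∑ d ∈ Ioc 0 D, mn ((X : ℝ) / d) (θ * d) ≤ 4 * C₂ * T * ℓ ^ 2 := by
    intro D hD
    have h1 := hs θ X q a D hq ha hθ (by linarith) (hD.trans hr4X)
    refine h1.trans ?_
    calc _ ≤ C₂ * T * (4 * ℓ ^ 2) := by
          gcongr
          rw [hT]
          linarith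
      _ = _ := by ring
  have hF0 : ∀ d : ℕ, 0 ≤ mn ((X : ℝ) / d) (θ * d) := fun d => mn_nonneg (by positivity)
  have hF : ∀ d b : ℕ, 0 < d → d ≤ Y → b ≤ Y / d →
      ‖∑ m ∈ Ioc 0 b, (fun n : ℕ => ee (θ * n)) (d * m)‖ ≤ mn ((X : ℝ) / d) (θ * d) := by
    intro d b hd hdY hbY
    have hdR : (0 : ℝ) < d := by exact_mod_cast hd
    have h1 := hg (θ * d) ((X : ℝ) / d) 0 b (by positivity) (by
      have h2 : (b : ℝ) ≤ ((Y / d : ℕ) : ℝ) := by exact_mod_cast hbY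
      have h3 : ((Y / d : ℕ) : ℝ) ≤ (Y : ℝ) / d := Nat.cast_div_le
      have h4 : (Y : ℝ) ≤ X := by exact_mod_cast hY
      have h5 : (Y : ℝ) / d ≤ X / d := by gcongr
      push_cast
      linarith)
    have h2 : ∑ m ∈ Ioc 0 b, (fun n : ℕ => ee (θ * n)) (d * m) =
        ∑ m ∈ Ioc 0 b, ee (θ * d * m) := by
      apply sum_congr rfl
      intro m _
      simp only []
      congr 1
      push_cast
      ring
    rw [h2]
    exact h1
  have hUX : (U : ℝ) ≤ r ^ 4 := hUle.trans hr24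
  have hp0 := part0 (fun n : ℕ => ee (θ * n)) (fun n => (ee_norm _).le) U Y X hX1 hY
  have hp1 := part1 (fun n : ℕ => ee (θ * n)) U Y X _ hX1 hY hF0 hF
  have hp2 := part2 (fun n : ℕ => ee (θ * n)) U Y X _ hX1 hY hF0 hF
  have hp3 := part3 (fun n : ℕ => ee (θ * n)) U Y X (√(6 * C₃) * ℓ ^ 3 * T) hX hY hU1
    (by positivity) (by
      intro M hM1 hUM hMU hMX
      have hMR : (1 : ℝ) ≤ M := by exact_mod_cast hM1
      have hM0 : (0 : ℝ) < M := by linarith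
      have h1 := hb θ q a U M 0 Y X hq ha hθ hU1 hM1 hMX hqX (Nat.zero_le _) hY hX
      have hUMR : (U : ℝ) ≤ 2 * M := by exact_mod_cast hUM.le
      have hMUR : (M : ℝ) * U ≤ r ^ 5 := by
        rw [hr5]
        exact_mod_cast hMU
      have hA : (M : ℝ) ≤ 2 * r ^ 3 := by
        have h2 : (M : ℝ) * r ^ 2 ≤ 2 * r ^ 3 * r ^ 2 := by
          calc (M : ℝ) * r ^ 2 ≤ M * (2 * U) := by gcongr
            _ = 2 * (M * U) := by ring
            _ ≤ 2 * r ^ 5 := by linarith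
            _ = 2 * r ^ 3 * r ^ 2 := by ring
        exact le_of_mul_le_mul_right h2 (by positivity)
      have hB : (X : ℝ) / M ≤ 4 * r ^ 3 := by
        rw [div_le_iff₀ hM0, ← hr5]
        calc r ^ 5 = r ^ 3 * r ^ 2 := by ring
          _ ≤ r ^ 3 * (4 * M) := by
              gcongr
              linarith
          _ = 4 * r ^ 3 * M := by ring
      have hsq : √(6 * C₃) ^ 2 = 6 * C₃ := Real.sq_sqrt (by positivity)
      have hfin : C₃ * X * Real.log (2 * X) ^ 6 * (M + (X : ℝ) / q + (X : ℝ) / M + q) ≤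
          (√(6 * C₃) * ℓ ^ 3 * T) ^ 2 := by
        have e1 : ((X : ℝ) / √(q : ℝ)) ^ 2 = X * (X / q) := by
          rw [div_pow, Real.sq_sqrt hq0.le]
          ring
        have e2 : √((X : ℝ) * q) ^ 2 = X * q := Real.sq_sqrt (by positivity)
        have e3 : (X : ℝ) * (6 * r ^ 3) = 6 * (r ^ 4) ^ 2 := by
          rw [← hr5]
          ring
        have e4 : (X : ℝ) * (M + (X : ℝ) / q + (X : ℝ) / M + q) ≤ 6 * T ^ 2 := by
          calc (X : ℝ) * (M + (X : ℝ) / q + (X : ℝ) / M + q) ≤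
                X * (6 * r ^ 3 + (X : ℝ) / q + q) := by
                apply mul_le_mul_of_nonneg_left _ hX0.le
                linarith
            _ = 6 * (r ^ 4) ^ 2 + ((X : ℝ) / √(q : ℝ)) ^ 2 + √((X : ℝ) * q) ^ 2 := by
                rw [e1, e2, ← e3]
                ring
            _ ≤ 6 * T ^ 2 := by
                rw [hT]
                exact six_sq hT1 hT2 hT3
        calc C₃ * X * Real.log (2 * X) ^ 6 * (M + (X : ℝ) / q + (X : ℝ) / M + q) =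
              C₃ * ℓ ^ 6 * ((X : ℝ) * (M + (X : ℝ) / q + (X : ℝ) / M + q)) := by
              rw [hℓ]
              ring
          _ ≤ C₃ * ℓ ^ 6 * (6 * T ^ 2) := by gcongr
          _ = (√(6 * C₃)) ^ 2 * ℓ ^ 6 * T ^ 2 := by rw [hsq]; ring
          _ = _ := by ring
      exact abs_le_of_sq_le_sq' (h1.trans hfin) (by positivity) |>.2)
  have hps : ps (fun n => ee (θ * n)) Y = tw (fun n : ℕ => ee (θ * n)) 0 Y Λ := by
    unfold ps tw
    apply sum_congr _ (fun _ _ => rfl)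
    ext n
    simp only [mem_Icc, mem_Ioc]
    omega
  have htot : tw (fun n : ℕ => ee (θ * n)) 0 Y Λ =
      tw (fun n : ℕ => ee (θ * n)) 0 Y (trunc U Λ) +
      tw (fun n : ℕ => ee (θ * n)) 0 Y (trunc U (μ : ArithmeticFunction ℝ) * ArithmeticFunction.log)
      - tw (fun n : ℕ => ee (θ * n)) 0 Y ((trunc U (μ : ArithmeticFunction ℝ) * trunc U Λ) *
        (ζ : ArithmeticFunction ℝ))
      + tw (fun n : ℕ => ee (θ * n)) 0 Y ((Λ - trunc U Λ) * beta U) := by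
    conv_lhs => rw [vaughan U]
    rw [tw_add, tw_sub, tw_add]
    rfl
  rw [hps, htot]
  have hs1 := hsum U hUX
  have hs2 := hsum (U ^ 2) hU2
  refine le_trans ?_ (final_ineq (C₃ := C₃) hℓ1 hT0 hC₂.le (u := U) ?_ hs1 hs2)
  · calc _ ≤ ‖tw (fun n : ℕ => ee (θ * n)) 0 Y (trunc U Λ)‖ +
        ‖tw (fun n : ℕ => ee (θ * n)) 0 Y (trunc U (μ : ArithmeticFunction ℝ) *
          ArithmeticFunction.log)‖ +
        ‖tw (fun n : ℕ => ee (θ * n)) 0 Y ((trunc U (μ : ArithmeticFunction ℝ) * trunc U Λ) *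
          (ζ : ArithmeticFunction ℝ))‖ +
        ‖tw (fun n : ℕ => ee (θ * n)) 0 Y ((Λ - trunc U Λ) * beta U)‖ := by
          refine (norm_add_le _ _).trans ?_
          gcongr
          refine (norm_sub_le _ _).trans ?_
          gcongr
          exact norm_add_le _ _
      _ ≤ _ := by gcongr
  · rw [hT]
    linarith

end Pool.Agent.H90.AG.VVG
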