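import Pool.Agent.H24.AG.Targets

/-!
ABSOLUTE GAP: row VVQ, rational frequencies along the primes `≡ 1 (mod W)`.
-/

set_option autoImplicit false

open Finset

namespace Pool.Agent.H90.AG

open Pool.Agent.H24.AG
open Pool.Agent.H24.T2 (Pset)

theorem ee_add (x y : ℝ) : ee (x + y) = ee x * ee y := by
  unfold ee
  rw [← Complex.exp_add]
  congr 1
  push_cast
  ring

theorem ee_int (k : ℤ) : ee (k : ℝ) = 1 := by
  unfold ee
  rw [Complex.exp_eq_one_iff]
  exact ⟨k, by push_cast; ring⟩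

theorem ee_norm (x : ℝ) : ‖ee x‖ = 1 := by
  unfold ee
  have h : 2 * Real.pi * Complex.I * (x : ℂ) = ((2 * Real.pi * x : ℝ) : ℂ) * Complex.I := by
    push_cast; ring
  rw [h, Complex.norm_exp_ofReal_mul_I]

theorem ee_mod' (a : ℤ) (q r k : ℕ) (hq : 0 < q) :
    ee ((a : ℝ) / q * ((r + q * k : ℕ) : ℝ)) = ee ((a : ℝ) * r / q) := by
  have hq' : (q : ℝ) ≠ 0 := by positivity
  have h : (a : ℝ) / q * ((r + q * k : ℕ) : ℝ) = (a : ℝ) * r / q + ((a * k : ℤ) : ℝ) := by
    push_cast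
    field_simp
  rw [h, ee_add, ee_int, mul_one]

theorem ee_mod (a : ℤ) (q u : ℕ) (hq : 0 < q) :
    ee ((a : ℝ) / q * (u : ℝ)) = ee ((a : ℝ) * ((u % q : ℕ) : ℝ) / q) := by
  have h := ee_mod' a q (u % q) (u / q) hq
  rw [Nat.mod_add_div] at h
  exact h

theorem eq_of_modEq_one {W p : ℕ} (hp : 1 ≤ p) (h : p ≡ 1 [MOD W]) : p = 1 + W * ((p - 1) / W) := by
  have h1 : W ∣ p - 1 := (Nat.modEq_iff_dvd' hp).1 h.symm
  rw [Nat.mul_div_cancel' h1]
  omega

theorem fiber_eq {W q m u0 : ℕ} (hW : 0 < W) (hu : u0 < q) :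
    (Pset W m).filter (fun p => (p - 1) / W % q = u0) = Pc (W * q) (1 + W * u0) m := by
  have hq : 0 < q := by omega
  ext p
  unfold Pset Pc
  simp only [mem_filter, mem_Ioc]
  constructor
  · rintro ⟨⟨h1, h2, h3⟩, h4⟩
    refine ⟨h1, h2, ?_⟩
    have h5 := eq_of_modEq_one h2.one_le h3
    have h6 : (p - 1) / W ≡ u0 [MOD q] := by
      unfold Nat.ModEq
      rw [h4, Nat.mod_eq_of_lt hu]
    rw [h5]
    exact Nat.ModEq.add_left 1 (Nat.ModEq.mul_left' W h6)
  · rintro ⟨h1, h2, h3⟩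
    have h4 : p ≡ 1 [MOD W] := by
      have h5 : p ≡ 1 + W * u0 [MOD W] := Nat.ModEq.of_mul_right q h3
      refine h5.trans ?_
      have h6 : W * u0 ≡ 0 [MOD W] := (Nat.modEq_zero_iff_dvd).2 (dvd_mul_right W u0)
      exact Nat.ModEq.add_left 1 h6
    refine ⟨⟨h1, h2, h4⟩, ?_⟩
    have h5 := eq_of_modEq_one h2.one_le h4
    rw [h5] at h3
    have h6 := Nat.ModEq.add_left_cancel' 1 h3
    have h7 : (p - 1) / W ≡ u0 [MOD q] := Nat.ModEq.mul_left_cancel' hW.ne' h6
    rw [← Nat.mod_eq_of_lt hu]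
    exact h7

theorem Pc_empty {W q m u0 : ℕ} (hq : 0 < q) (hm : q ≤ 2 ^ m) (h : ¬ (1 + W * u0).Coprime q) :
    Pc (W * q) (1 + W * u0) m = ∅ := by
  unfold Pc
  rw [filter_eq_empty_iff]
  rintro p hp ⟨h1, h2⟩
  rw [mem_Ioc] at hp
  apply h
  have h3 : p ≡ 1 + W * u0 [MOD q] := Nat.ModEq.of_mul_left W h2
  have h4 : Nat.Coprime p q := by
    rw [Nat.Prime.coprime_iff_not_dvd h1]
    intro h5
    have := Nat.le_of_dvd hq h5
    omega
  have h5 := h3.gcd_eq
  unfold Nat.Coprime at h4 ⊢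
  rw [← h5, h4]

theorem pf_VVQ (hr : T_VRA) (he : T_VEC) (hc : T_VCT) : T_VVQ := by
  intro w W q a hw hW hwW hq ha ε hε
  have hq0 : 0 < q := by omega
  have hqR : (0 : ℝ) < q := by exact_mod_cast hq0
  obtain ⟨c, hc0, m1, hm1⟩ := hc W hW
  set S : Finset ℕ := (range q).filter (fun u => (1 + W * u).Coprime q) with hS
  set ε' : ℝ := ε * c / (2 * q) with hε'
  have hε'0 : 0 < ε' := by positivity
  have hcop : ∀ u ∈ S, (1 + W * u).Coprime (W * q) := by
    intro u hu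
    rw [hS, mem_filter] at hu
    apply Nat.Coprime.mul_right _ hu.2
    simp
  have hex : ∀ u : ℕ, ∃ m₀ : ℕ, u ∈ S → ∀ m : ℕ, m₀ ≤ m →
      |((Pc (W * q) (1 + W * u) m).card : ℝ) - (Pc (W * q) 1 m).card| ≤ ε' * 2 ^ m / m := by
    intro u
    by_cases hu : u ∈ S
    · obtain ⟨m₀, h⟩ := he (W * q) (1 + W * u) 1 ε' (by positivity) (hcop u hu) (by simp) hε'0
      exact ⟨m₀, fun _ => h⟩
    · exact ⟨0, fun h => absurd h hu⟩
  choose f hf using hex
  refine ⟨m1 + q + ∑ u ∈ S, f u, fun m hm => ?_⟩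
  have hmm1 : m1 ≤ m := by omega
  have hmq : q ≤ 2 ^ m := by
    have h1 : q ≤ m := by omega
    exact h1.trans Nat.lt_two_pow_self.le
  have hfm : ∀ u ∈ S, f u ≤ m := by
    intro u hu
    have : f u ≤ ∑ u ∈ S, f u := single_le_sum (f := f) (fun _ _ => Nat.zero_le _) hu
    omega
  set N1 : ℝ := ((Pc (W * q) 1 m).card : ℝ) with hN1
  set E : ℝ := ε' * 2 ^ m / m with hE
  have hN10 : 0 ≤ N1 := by positivity
  have hE0 : 0 ≤ E := by positivity
  have hcard : ∀ u ∈ S, |((Pc (W * q) (1 + W * u) m).card : ℝ) - N1| ≤ E :=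
    fun u hu => hf u hu m (hfm u hu)
  -- the sum over the primes, sorted by the residue class of `(p - 1) / W`
  have hsum : ∀ g : ℕ → ℂ, ∑ p ∈ Pset W m, g ((p - 1) / W % q) =
      ∑ u ∈ S, ((Pc (W * q) (1 + W * u) m).card : ℂ) * g u := by
    intro g
    have h1 : ∑ p ∈ Pset W m, g ((p - 1) / W % q) =
        ∑ u ∈ range q, ∑ p ∈ (Pset W m).filter (fun p => (p - 1) / W % q = u),
          g ((p - 1) / W % q) := by
      rw [sum_fiberwise_of_maps_to]
      intro p _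
      rw [mem_range]
      exact Nat.mod_lt _ hq0
    rw [h1]
    have h2 : ∀ u ∈ range q, ∑ p ∈ (Pset W m).filter (fun p => (p - 1) / W % q = u),
        g ((p - 1) / W % q) = ((Pc (W * q) (1 + W * u) m).card : ℂ) * g u := by
      intro u hu
      rw [mem_range] at hu
      have h3 : ∑ p ∈ (Pset W m).filter (fun p => (p - 1) / W % q = u),
          g ((p - 1) / W % q) = ∑ p ∈ (Pset W m).filter (fun p => (p - 1) / W % q = u), g u := by
        apply sum_congr rfl
        intro p hp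
        rw [mem_filter] at hp
        rw [hp.2]
      rw [h3, sum_const, fiber_eq hW hu, nsmul_eq_mul]
    rw [sum_congr rfl h2, hS, sum_filter]
    apply sum_congr rfl
    intro u _
    split_ifs with h
    · rfl
    · rw [Pc_empty hq0 hmq h]; simp
  have hS1 : ((Pset W m).card : ℝ) = ∑ u ∈ S, ((Pc (W * q) (1 + W * u) m).card : ℝ) := by
    have h := hsum (fun _ => 1)
    simp only [sum_const, nsmul_eq_mul, mul_one] at h
    have h2 : (((Pset W m).card : ℝ) : ℂ) =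
        ((∑ u ∈ S, ((Pc (W * q) (1 + W * u) m).card : ℝ) : ℝ) : ℂ) := by
      push_cast
      exact h
    exact Complex.ofReal_injective h2
  have hSq : (S.card : ℝ) ≤ q := by
    have : S.card ≤ (range q).card := card_le_card (filter_subset _ _)
    rw [card_range] at this
    exact_mod_cast this
  have hlow : (S.card : ℝ) * N1 ≤ (Pset W m).card + S.card * E := by
    rw [hS1]
    have : ∑ u ∈ S, N1 ≤ ∑ u ∈ S, (((Pc (W * q) (1 + W * u) m).card : ℝ) + E) := by
      apply sum_le_sum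
      intro u hu
      have := abs_le.1 (hcard u hu)
      linarith [this.1]
    rw [sum_add_distrib, sum_const, sum_const, nsmul_eq_mul, nsmul_eq_mul] at this
    exact this
  have hmain : ∑ p ∈ Pset W m, ee ((a : ℝ) / q * ((p - 1) / W : ℕ)) =
      ∑ u ∈ S, ((Pc (W * q) (1 + W * u) m).card : ℂ) * ee ((a : ℝ) * u / q) := by
    rw [← hsum (fun u => ee ((a : ℝ) * u / q))]
    apply sum_congr rfl
    intro p _
    exact ee_mod a q _ hq0
  have hsplit : ∑ u ∈ S, ((Pc (W * q) (1 + W * u) m).card : ℂ) * ee ((a : ℝ) * u / q) =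
      (N1 : ℂ) * ∑ u ∈ S, ee ((a : ℝ) * u / q) +
      ∑ u ∈ S, ((((Pc (W * q) (1 + W * u) m).card : ℝ) - N1 : ℝ) : ℂ) * ee ((a : ℝ) * u / q) := by
    rw [mul_sum, ← sum_add_distrib]
    apply sum_congr rfl
    intro u _
    push_cast
    ring
  have hA := hr w W q a hw hW hwW hq ha
  have hB : ‖∑ u ∈ S, ((((Pc (W * q) (1 + W * u) m).card : ℝ) - N1 : ℝ) : ℂ) *
      ee ((a : ℝ) * u / q)‖ ≤ S.card * E := by
    calc _ ≤ ∑ u ∈ S, E := by
          refine (norm_sum_le _ _).trans (sum_le_sum fun u hu => ?_)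
          rw [norm_mul, ee_norm, mul_one, Complex.norm_real, Real.norm_eq_abs]
          exact hcard u hu
      _ = S.card * E := by rw [sum_const, nsmul_eq_mul]
  have hw1 : (1 : ℝ) / w ≤ 1 := by
    rw [div_le_one (by exact_mod_cast hw)]
    exact_mod_cast hw
  have hw0 : (0 : ℝ) ≤ 1 / w := by positivity
  have hEc : (q : ℝ) * E * 2 ≤ ε * (Pset W m).card := by
    have h1 := hm1 m hmm1
    have h2 : (q : ℝ) * E * 2 = ε * (c * 2 ^ m / m) := by
      rw [hE, hε']
      field_simp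
    rw [h2]
    gcongr
  rw [hmain, hsplit]
  calc _ ≤ ‖(N1 : ℂ) * ∑ u ∈ S, ee ((a : ℝ) * u / q)‖ + ‖∑ u ∈ S,
        ((((Pc (W * q) (1 + W * u) m).card : ℝ) - N1 : ℝ) : ℂ) * ee ((a : ℝ) * u / q)‖ :=
        norm_add_le _ _
    _ ≤ N1 * (1 / (w : ℝ) * S.card) + S.card * E := by
        gcongr
        rw [norm_mul, Complex.norm_real, Real.norm_eq_abs, abs_of_nonneg hN10]
        exact mul_le_mul_of_nonneg_left hA hN10
    _ = 1 / (w : ℝ) * (S.card * N1) + S.card * E := by ring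
    _ ≤ 1 / (w : ℝ) * ((Pset W m).card + S.card * E) + S.card * E := by gcongr
    _ = 1 / (w : ℝ) * (Pset W m).card + (1 / (w : ℝ)) * (S.card * E) + S.card * E := by ring
    _ ≤ 1 / (w : ℝ) * (Pset W m).card + 1 * (S.card * E) + S.card * E := by gcongr
    _ = 1 / (w : ℝ) * (Pset W m).card + S.card * E * 2 := by ring
    _ ≤ 1 / (w : ℝ) * (Pset W m).card + q * E * 2 := by gcongr
    _ ≤ 1 / (w : ℝ) * (Pset W m).card + ε * (Pset W m).card := by gcongr
    _ = (1 / w + ε) * (Pset W m).card := by ring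

end Pool.Agent.H90.AG
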